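import Mathlib

/-!
# Positive definite real quadratic forms on `ℂⁿ`

* lower bound `Q(z) ≥ m ∑ |z_i|²`;
* a complex line on which `Q` is not a multiple of `|t|²` meets `Q = 1` in a proper ellipse;
* a form with `Q(i z) = Q(z)` is `∑_j |∑_i A_ji z_i|²` with `A` invertible.
-/

namespace Pool.Agent.Work.MP_49847a_an

open Complex

variable {n : ℕ}

theorem quad_smul (Q : QuadraticForm ℝ (Fin n → ℂ)) (v : Fin n → ℂ) (x y : ℝ) :
    Q (((x : ℂ) + (y : ℂ) * I) • v) =
      x ^ 2 * Q v + y ^ 2 * Q (I • v) + x * y * QuadraticMap.polar Q v (I • v) := by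
  have e : ((x : ℂ) + (y : ℂ) * I) • v = x • v + y • (I • v) := by
    funext i
    simp only [Pi.smul_apply, Pi.add_apply, smul_eq_mul, Complex.real_smul]
    ring
  rw [e, QuadraticMap.map_add (⇑Q), QuadraticMap.map_smul, QuadraticMap.map_smul,
    QuadraticMap.polar_smul_left, QuadraticMap.polar_smul_right]
  simp only [smul_eq_mul]
  ring

theorem quad_continuous (Q : QuadraticForm ℝ (Fin n → ℂ)) : Continuous Q := by
  set B : (Fin n → ℂ) →ₗ[ℝ] (Fin n → ℂ) →ₗ[ℝ] ℝ := QuadraticMap.associated Q with hB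
  have h1 : ∀ z, Q z = B z z := by
    intro z
    rw [hB, QuadraticMap.associated_eq_self_apply]
  set T : (Fin n → ℂ) →ₗ[ℝ] (Fin n → ℂ) →L[ℝ] ℝ :=
    (LinearMap.toContinuousLinearMap (𝕜 := ℝ) (E := Fin n → ℂ) (F' := ℝ)).toLinearMap ∘ₗ B with hT
  have hTc : Continuous T := T.continuous_of_finiteDimensional
  have h2 : (fun z => Q z) = fun z => T z z := by
    funext z
    rw [h1, hT]
    rfl
  show Continuous (fun z => Q z)
  rw [h2]
  exact hTc.clm_apply continuous_id

theorem nn_continuous : Continuous (fun z : Fin n → ℂ => ∑ i, ‖z i‖ ^ 2) := by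
  fun_prop

theorem quad_lower (Q : QuadraticForm ℝ (Fin n → ℂ)) (hQ : Q.PosDef) :
    ∃ m : ℝ, 0 < m ∧ ∀ z : Fin n → ℂ, m * ∑ i, ‖z i‖ ^ 2 ≤ Q z := by
  set S : Set (Fin n → ℂ) := {z | ∑ i, ‖z i‖ ^ 2 = 1} with hS
  have hcl : IsClosed S := isClosed_eq nn_continuous continuous_const
  have hbd : Bornology.IsBounded S := by
    refine (Metric.isBounded_closedBall (x := (0 : Fin n → ℂ)) (r := 1)).subset ?_
    intro z hz
    rw [mem_closedBall_zero_iff, pi_norm_le_iff_of_nonneg zero_le_one]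
    intro i
    have h1 : ‖z i‖ ^ 2 ≤ 1 := by
      have h2 : ∑ i, ‖z i‖ ^ 2 = 1 := hz
      rw [← h2]
      exact Finset.single_le_sum (f := fun i => ‖z i‖ ^ 2) (fun _ _ => sq_nonneg _)
        (Finset.mem_univ i)
    have h3 : (0 : ℝ) ≤ ‖z i‖ := norm_nonneg _
    nlinarith
  have hcp : IsCompact S := Metric.isCompact_of_isClosed_isBounded hcl hbd
  have hscale : ∀ z : Fin n → ℂ, 0 < ∑ i, ‖z i‖ ^ 2 → ∃ u ∈ S, Q z = (∑ i, ‖z i‖ ^ 2) * Q u := by
    intro z hz
    set s := ∑ i, ‖z i‖ ^ 2 with hs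
    have hr : 0 < Real.sqrt s := Real.sqrt_pos.mpr hz
    refine ⟨(1 / Real.sqrt s) • z, ?_, ?_⟩
    · show ∑ i, ‖((1 / Real.sqrt s) • z) i‖ ^ 2 = 1
      have h1 : ∀ i, ‖((1 / Real.sqrt s) • z) i‖ ^ 2 = (1 / s) * ‖z i‖ ^ 2 := by
        intro i
        rw [Pi.smul_apply, norm_smul, mul_pow, Real.norm_eq_abs, sq_abs, div_pow, one_pow,
          Real.sq_sqrt hz.le]
      rw [Finset.sum_congr rfl fun i _ => h1 i, ← Finset.mul_sum, ← hs]
      field_simp
    · rw [QuadraticMap.map_smul, smul_eq_mul]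
      have h2 : Real.sqrt s * Real.sqrt s = s := Real.mul_self_sqrt hz.le
      field_simp
      rw [sq, h2]
  rcases S.eq_empty_or_nonempty with he | hne
  · refine ⟨1, one_pos, fun z => ?_⟩
    rcases (Finset.sum_nonneg fun i _ => sq_nonneg ‖z i‖ : 0 ≤ ∑ i, ‖z i‖ ^ 2).eq_or_lt with h0 | h0
    · rw [← h0, mul_zero]
      exact QuadraticMap.PosDef.nonneg hQ z
    · obtain ⟨u, hu, _⟩ := hscale z h0
      rw [he] at hu
      exact absurd hu (Set.notMem_empty u)
  · obtain ⟨u, hu, hmin⟩ := hcp.exists_isMinOn hne (quad_continuous Q).continuousOn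
    have hu0 : u ≠ 0 := by
      rintro rfl
      have : ∑ i : Fin n, ‖(0 : Fin n → ℂ) i‖ ^ 2 = 1 := hu
      simp at this
    refine ⟨Q u, hQ u hu0, fun z => ?_⟩
    rcases (Finset.sum_nonneg fun i _ => sq_nonneg ‖z i‖ : 0 ≤ ∑ i, ‖z i‖ ^ 2).eq_or_lt with h0 | h0
    · rw [← h0, mul_zero]
      exact QuadraticMap.PosDef.nonneg hQ z
    · obtain ⟨w, hw, hzw⟩ := hscale z h0
      rw [hzw, mul_comm]
      exact mul_le_mul_of_nonneg_left (hmin hw) h0.le

theorem param (Q : QuadraticForm ℝ (Fin n → ℂ)) (hQ : Q.PosDef) {v : Fin n → ℂ}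
    (h : Q (I • v) ≠ Q v) :
    ∃ μ ν : ℂ, μ ≠ 0 ∧ ν ≠ 0 ∧ ∀ s : ℂ, ‖s‖ = 1 →
      Q ((μ * s + ν * (starRingEnd ℂ) s) • v) = 1 := by
  have hv : v ≠ 0 := by
    rintro rfl
    apply h
    rw [smul_zero]
  set a := Q v with ha
  set b := Q (I • v) with hb
  set p := QuadraticMap.polar Q v (I • v) with hp
  have ha0 : 0 < a := hQ v hv
  have hI : ∀ x y : ℝ, (x : ℂ) + (y : ℂ) * I = 0 → y = 0 := by
    intro x y hxy
    have := congrArg Complex.im hxy
    simpa using this
  set lam : ℝ := p / (2 * a) with hlam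
  have hD : 0 < b - p ^ 2 / (4 * a) := by
    have h1 : (((-lam : ℝ) : ℂ) + ((1 : ℝ) : ℂ) * I) • v ≠ 0 := by
      intro h2
      rcases smul_eq_zero.mp h2 with h3 | h3
      · have := hI _ _ h3
        norm_num at this
      · exact hv h3
    have h2 := hQ _ h1
    rw [quad_smul, ← ha, ← hb, ← hp] at h2
    have h3 : (-lam) ^ 2 * a + 1 ^ 2 * b + -lam * 1 * p = b - p ^ 2 / (4 * a) := by
      rw [hlam]
      field_simp
      ring
    rwa [h3] at h2
  set D := b - p ^ 2 / (4 * a) with hDdef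
  set a1 : ℝ := 1 / Real.sqrt a with ha1
  set kap : ℝ := 1 / Real.sqrt D with hkap
  have ha1p : 0 < a1 := one_div_pos.mpr (Real.sqrt_pos.mpr ha0)
  have hkp : 0 < kap := one_div_pos.mpr (Real.sqrt_pos.mpr hD)
  have ha1s : a1 ^ 2 * a = 1 := by
    rw [ha1, div_pow, one_pow, Real.sq_sqrt ha0.le]
    field_simp
  have hks : kap ^ 2 * D = 1 := by
    rw [hkap, div_pow, one_pow, Real.sq_sqrt hD.le]
    field_simp
  refine ⟨⟨(a1 + kap) / 2, kap * lam / 2⟩, ⟨(a1 - kap) / 2, -(kap * lam) / 2⟩, ?_, ?_, ?_⟩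
  · intro h0
    have := congrArg Complex.re h0
    simp only [Complex.zero_re] at this
    linarith
  · intro h0
    have h1 := congrArg Complex.re h0
    have h2 := congrArg Complex.im h0
    simp only [Complex.zero_re, Complex.zero_im] at h1 h2
    have h3 : a1 = kap := by linarith
    have h4 : kap * lam = 0 := by linarith
    have h5 : lam = 0 := by
      rcases mul_eq_zero.mp h4 with h5 | h5
      · exact absurd h5 hkp.ne'
      · exact h5
    have h6 : p = 0 := by
      rw [hlam] at h5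
      rcases div_eq_zero_iff.mp h5 with h6 | h6
      · exact h6
      · linarith
    have h7 : D = b := by rw [hDdef, h6]; simp
    apply h
    rw [h7, ← h3] at hks
    have h8 : a1 ^ 2 * b = a1 ^ 2 * a := by rw [hks, ha1s]
    exact mul_left_cancel₀ (pow_ne_zero 2 ha1p.ne') h8
  · intro s hs
    set X := s.re with hX
    set Y := s.im with hY
    have hXY : X ^ 2 + Y ^ 2 = 1 := by
      have h1 : ‖s‖ ^ 2 = 1 := by rw [hs]; norm_num
      rw [← Complex.normSq_eq_norm_sq, Complex.normSq_apply] at h1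
      nlinarith [h1]
    have e : ((⟨(a1 + kap) / 2, kap * lam / 2⟩ : ℂ) * s +
        (⟨(a1 - kap) / 2, -(kap * lam) / 2⟩ : ℂ) * (starRingEnd ℂ) s) =
        ((a1 * X - kap * lam * Y : ℝ) : ℂ) + ((kap * Y : ℝ) : ℂ) * I := by
      apply Complex.ext
      · simp [← hX, ← hY]
        ring
      · simp [← hX, ← hY]
        ring
    rw [e, quad_smul, ← ha, ← hb, ← hp]
    have hp' : p = 2 * a * lam := by
      rw [hlam]
      field_simp
    have hD' : D = b - a * lam ^ 2 := by
      rw [hDdef, hp']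
      field_simp
      ring
    rw [hD'] at hks
    rw [hp']
    linear_combination X ^ 2 * ha1s + Y ^ 2 * hks + hXY

/-- the sesquilinear form of `Q` -/
noncomputable def hh (Q : QuadraticForm ℝ (Fin n → ℂ)) (u w : Fin n → ℂ) : ℂ :=
  ((QuadraticMap.polar Q u w / 2 : ℝ) : ℂ) - ((QuadraticMap.polar Q u (I • w) / 2 : ℝ) : ℂ) * I

theorem polar_I {Q : QuadraticForm ℝ (Fin n → ℂ)} (h : ∀ z, Q (I • z) = Q z)
    (u w : Fin n → ℂ) : QuadraticMap.polar Q (I • u) (I • w) = QuadraticMap.polar Q u w := by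
  unfold QuadraticMap.polar
  rw [← smul_add, h, h, h]

theorem I_I (w : Fin n → ℂ) : I • (I • w) = -w := by
  rw [smul_smul, I_mul_I, neg_smul, one_smul]

theorem polar_I' {Q : QuadraticForm ℝ (Fin n → ℂ)} (h : ∀ z, Q (I • z) = Q z)
    (u w : Fin n → ℂ) : QuadraticMap.polar Q (I • u) w = -QuadraticMap.polar Q u (I • w) := by
  rw [← polar_I h (I • u) w, I_I, QuadraticMap.polar_neg_left]

theorem hh_add_right (Q : QuadraticForm ℝ (Fin n → ℂ)) (u w w' : Fin n → ℂ) :
    hh Q u (w + w') = hh Q u w + hh Q u w' := by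
  unfold hh
  rw [smul_add, QuadraticMap.polar_add_right, QuadraticMap.polar_add_right]
  push_cast
  ring

theorem hh_add_left (Q : QuadraticForm ℝ (Fin n → ℂ)) (u u' w : Fin n → ℂ) :
    hh Q (u + u') w = hh Q u w + hh Q u' w := by
  unfold hh
  rw [QuadraticMap.polar_add_left, QuadraticMap.polar_add_left]
  push_cast
  ring

theorem hh_smul_right (Q : QuadraticForm ℝ (Fin n → ℂ)) (u w : Fin n → ℂ) (c : ℂ) :
    hh Q u (c • w) = c * hh Q u w := by
  have e : c • w = c.re • w + c.im • (I • w) := by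
    funext i
    simp only [Pi.smul_apply, Pi.add_apply, smul_eq_mul, Complex.real_smul]
    conv_lhs => rw [← Complex.re_add_im c]
    ring
  have e2 : I • (c • w) = c.re • (I • w) + (-c.im) • w := by
    funext i
    simp only [Pi.smul_apply, Pi.add_apply, smul_eq_mul, Complex.real_smul]
    conv_lhs => rw [← Complex.re_add_im c]
    push_cast
    linear_combination (c.im : ℂ) * w i * I_mul_I
  unfold hh
  rw [e2, e, QuadraticMap.polar_add_right, QuadraticMap.polar_add_right,
    QuadraticMap.polar_smul_right, QuadraticMap.polar_smul_right, QuadraticMap.polar_smul_right,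
    QuadraticMap.polar_smul_right]
  simp only [smul_eq_mul]
  conv_rhs => rw [← Complex.re_add_im c]
  push_cast
  linear_combination (c.im : ℂ) * ((QuadraticMap.polar Q u (I • w) : ℝ) : ℂ) / 2 * I_mul_I

theorem hh_smul_left {Q : QuadraticForm ℝ (Fin n → ℂ)} (h : ∀ z, Q (I • z) = Q z)
    (u w : Fin n → ℂ) (c : ℂ) : hh Q (c • u) w = (starRingEnd ℂ) c * hh Q u w := by
  have e : c • u = c.re • u + c.im • (I • u) := by
    funext i
    simp only [Pi.smul_apply, Pi.add_apply, smul_eq_mul, Complex.real_smul]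
    conv_lhs => rw [← Complex.re_add_im c]
    ring
  have hc : (starRingEnd ℂ) c = (c.re : ℂ) - (c.im : ℂ) * I := by
    apply Complex.ext <;> simp
  unfold hh
  rw [e, QuadraticMap.polar_add_left, QuadraticMap.polar_add_left,
    QuadraticMap.polar_smul_left, QuadraticMap.polar_smul_left, QuadraticMap.polar_smul_left,
    QuadraticMap.polar_smul_left, polar_I' h, polar_I h, hc]
  simp only [smul_eq_mul]
  push_cast
  linear_combination (-(c.im : ℂ)) * ((QuadraticMap.polar Q u (I • w) : ℝ) : ℂ) / 2 * I_mul_I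

theorem hh_self {Q : QuadraticForm ℝ (Fin n → ℂ)} (h : ∀ z, Q (I • z) = Q z)
    (z : Fin n → ℂ) : hh Q z z = ((Q z : ℝ) : ℂ) := by
  have h1 : QuadraticMap.polar Q z (I • z) = 0 := by
    have h2 := polar_I' h z z
    rw [QuadraticMap.polar_comm] at h2
    linarith
  unfold hh
  rw [h1, QuadraticMap.polar_self]
  simp

theorem hh_sum_left {Q : QuadraticForm ℝ (Fin n → ℂ)} (h : ∀ z, Q (I • z) = Q z)
    {ι : Type*} (s : Finset ι) (c : ι → ℂ) (e : ι → Fin n → ℂ) (w : Fin n → ℂ) :
    hh Q (∑ j ∈ s, c j • e j) w = ∑ j ∈ s, (starRingEnd ℂ) (c j) * hh Q (e j) w := by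
  classical
  induction s using Finset.induction_on with
  | empty =>
    have := hh_smul_left h 0 w 0
    simpa using this
  | insert a s ha ih =>
    rw [Finset.sum_insert ha, Finset.sum_insert ha, hh_add_left, ih, hh_smul_left h]

theorem hh_sum_right (Q : QuadraticForm ℝ (Fin n → ℂ))
    {ι : Type*} (s : Finset ι) (c : ι → ℂ) (e : ι → Fin n → ℂ) (u : Fin n → ℂ) :
    hh Q u (∑ j ∈ s, c j • e j) = ∑ j ∈ s, c j * hh Q u (e j) := by
  classical
  induction s using Finset.induction_on with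
  | empty =>
    have := hh_smul_right Q u 0 0
    simpa using this
  | insert a s ha ih =>
    rw [Finset.sum_insert ha, Finset.sum_insert ha, hh_add_right, ih, hh_smul_right]

open scoped MatrixOrder ComplexOrder in
/-- a form invariant under multiplication by `i` is a Hermitian form -/
theorem hermitian (Q : QuadraticForm ℝ (Fin n → ℂ)) (hQ : Q.PosDef)
    (h : ∀ z, Q (I • z) = Q z) :
    ∃ A : Matrix (Fin n) (Fin n) ℂ, ∀ z, Q z = ∑ j, ‖(A.mulVec z) j‖ ^ 2 := by
  set e : Fin n → Fin n → ℂ := fun j => Pi.single j 1 with he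
  set M : Matrix (Fin n) (Fin n) ℂ := Matrix.of fun j k => hh Q (e j) (e k) with hM
  have hsum : ∀ z : Fin n → ℂ, z = ∑ j, z j • e j := by
    intro z
    funext i
    rw [Finset.sum_apply]
    simp [he, Pi.single_apply]
  have hval : ∀ z : Fin n → ℂ, dotProduct (star z) (M.mulVec z) = ((Q z : ℝ) : ℂ) := by
    intro z
    rw [← hh_self h z]
    conv_rhs => rw [hsum z, hh_sum_left h]
    simp only [dotProduct, Matrix.mulVec, hM, Matrix.of_apply, Pi.star_apply]
    refine Finset.sum_congr rfl fun j _ => ?_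
    congr 1
    rw [← hsum z]
    conv_rhs => rw [hsum z, hh_sum_right]
    refine Finset.sum_congr rfl fun k _ => ?_
    rw [mul_comm]
  have hherm : M.IsHermitian := by
    ext j k
    simp only [hM, Matrix.conjTranspose_apply, Matrix.of_apply]
    unfold hh
    have h1 := polar_I' h (e j) (e k)
    rw [QuadraticMap.polar_comm] at h1
    rw [QuadraticMap.polar_comm (⇑Q) (e k) (e j), h1]
    apply Complex.ext
    · simp
    · simp
      ring
  have hpsd : M.PosSemidef := by
    refine Matrix.PosSemidef.of_dotProduct_mulVec_nonneg hherm fun z => ?_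
    rw [hval]
    exact_mod_cast QuadraticMap.PosDef.nonneg hQ z
  obtain ⟨A, hA⟩ := CStarAlgebra.nonneg_iff_eq_star_mul_self.mp hpsd.nonneg
  refine ⟨A, fun z => ?_⟩
  have h1 := hval z
  rw [hA, Matrix.star_eq_conjTranspose, ← Matrix.mulVec_mulVec, Matrix.dotProduct_mulVec,
    Matrix.vecMul_conjTranspose, star_star] at h1
  have h2 : dotProduct (star (A.mulVec z)) (A.mulVec z) =
      ((∑ j, ‖(A.mulVec z) j‖ ^ 2 : ℝ) : ℂ) := by
    simp only [dotProduct, Pi.star_apply]
    push_cast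
    refine Finset.sum_congr rfl fun j _ => ?_
    rw [Complex.star_def, mul_comm, Complex.mul_conj, Complex.normSq_eq_norm_sq]
    push_cast
    rfl
  rw [h2] at h1
  exact_mod_cast h1.symm

end Pool.Agent.Work.MP_49847a_an
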