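import Mathlib

/-!
# Sums of squares of polynomials on an ellipse in the complex plane

The ellipse is `{μ s + ν conj s : |s| = 1}` with `μ, ν ≠ 0`.  A function `K - A |t|² - 2 Re(b t)` with
`A > 0` is not a sum of squared moduli of polynomials on it: compare the top coefficients of the
Laurent polynomials in `s`.
-/

namespace Pool.Agent.Work.MP_49847a_an

open Polynomial

/-- `s^M p(μ s + ν/s)` as a polynomial in `s` -/
noncomputable def UU (μ ν : ℂ) (M : ℕ) (p : ℂ[X]) : ℂ[X] :=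
  ∑ k ∈ Finset.range (M + 1), C (p.coeff k) * (C μ * X ^ 2 + C ν) ^ k * X ^ (M - k)

theorem UU_eval (μ ν : ℂ) {M : ℕ} {p : ℂ[X]} (hp : p.natDegree ≤ M) {s t : ℂ}
    (hst : s * t = 1) : (UU μ ν M p).eval s = s ^ M * p.eval (μ * s + ν * t) := by
  rw [UU, eval_finsetSum, eval_eq_sum_range' (Nat.lt_succ_of_le hp), Finset.mul_sum]
  refine Finset.sum_congr rfl fun k hk => ?_
  have hk' : k ≤ M := Nat.lt_succ_iff.mp (Finset.mem_range.mp hk)
  have e1 : μ * s ^ 2 + ν = s * (μ * s + ν * t) := by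
    linear_combination (-ν) * hst
  simp only [eval_mul, eval_C, eval_pow, eval_add, eval_X]
  rw [e1, mul_pow]
  have e2 : s ^ M = s ^ k * s ^ (M - k) := by
    rw [← pow_add, Nat.add_sub_cancel' hk']
  rw [e2]
  ring

theorem quad_natDegree (μ ν : ℂ) : (C μ * X ^ 2 + C ν : ℂ[X]).natDegree ≤ 2 := by
  compute_degree

theorem UU_term (μ ν : ℂ) (c : ℂ) (k e : ℕ) :
    (C c * (C μ * X ^ 2 + C ν) ^ k * X ^ e : ℂ[X]).natDegree ≤ 2 * k + e := by
  refine natDegree_mul_le.trans ?_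
  have h1 : (C c * (C μ * X ^ 2 + C ν) ^ k : ℂ[X]).natDegree ≤ 2 * k := by
    refine natDegree_mul_le.trans ?_
    rw [natDegree_C, zero_add]
    refine natDegree_pow_le.trans ?_
    rw [mul_comm]
    exact Nat.mul_le_mul_right _ (quad_natDegree μ ν)
  rw [natDegree_X_pow]
  omega

theorem UU_natDegree (μ ν : ℂ) (M : ℕ) (p : ℂ[X]) : (UU μ ν M p).natDegree ≤ 2 * M := by
  refine natDegree_sum_le_of_forall_le _ _ fun k hk => ?_
  have hk' : k ≤ M := Nat.lt_succ_iff.mp (Finset.mem_range.mp hk)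
  exact (UU_term μ ν _ k (M - k)).trans (by omega)

theorem UU_coeff (μ ν : ℂ) (M : ℕ) (p : ℂ[X]) :
    (UU μ ν M p).coeff (2 * M) = p.coeff M * μ ^ M := by
  rw [UU, finsetSum_coeff, Finset.sum_eq_single M]
  · rw [Nat.sub_self, pow_zero, mul_one, coeff_C_mul]
    congr 1
    have h := coeff_pow_of_natDegree_le (m := M) (quad_natDegree μ ν)
    rw [mul_comm M 2] at h
    rw [h]
    congr 1
    simp [coeff_X_pow]
  · intro k hk hkM
    have hk' : k ≤ M := Nat.lt_succ_iff.mp (Finset.mem_range.mp hk)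
    apply coeff_eq_zero_of_natDegree_lt
    have := UU_term μ ν (p.coeff k) k (M - k)
    omega
  · intro h
    exact absurd (Finset.mem_range.mpr (Nat.lt_succ_self M)) h

theorem UU_mul_coeff (μ ν μ' ν' : ℂ) (M : ℕ) (p p' : ℂ[X]) :
    (UU μ ν M p * UU μ' ν' M p').coeff (2 * M + 2 * M) =
      (p.coeff M * μ ^ M) * (p'.coeff M * μ' ^ M) := by
  rw [coeff_mul_add_eq_of_natDegree_le (UU_natDegree μ ν M p) (UU_natDegree μ' ν' M p'), UU_coeff,
    UU_coeff]

/-- `s^{2M} (K - A t t' - b t - b' t')` with `t = μ s + ν/s`, `t' = μ' s + ν'/s`, for `M ≥ 1`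
(`M = N + 1`) -/
noncomputable def RHS (μ ν μ' ν' K A b b' : ℂ) (N : ℕ) : ℂ[X] :=
  C K * X ^ (2 * N + 2) - C A * ((C μ * X ^ 2 + C ν) * (C μ' * X ^ 2 + C ν')) * X ^ (2 * N)
    - C b * (C μ * X ^ 2 + C ν) * X ^ (2 * N + 1) - C b' * (C μ' * X ^ 2 + C ν') * X ^ (2 * N + 1)

theorem RHS_eval (μ ν μ' ν' K A b b' : ℂ) (N : ℕ) {s t : ℂ} (hst : s * t = 1) :
    (RHS μ ν μ' ν' K A b b' N).eval s = s ^ (N + 1) * s ^ (N + 1) *
      (K - A * ((μ * s + ν * t) * (μ' * s + ν' * t)) - b * (μ * s + ν * t)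
        - b' * (μ' * s + ν' * t)) := by
  have e1 : ∀ a c : ℂ, a * s ^ 2 + c = s * (a * s + c * t) := by
    intro a c
    linear_combination (-c) * hst
  simp only [RHS, eval_sub, eval_mul, eval_C, eval_pow, eval_X, eval_add]
  rw [e1, e1]
  ring

theorem RHS_coeff_one (μ ν μ' ν' K A b b' : ℂ) :
    (RHS μ ν μ' ν' K A b b' 0).coeff 4 = -(A * (μ * μ')) := by
  have e : RHS μ ν μ' ν' K A b b' 0 = C (-(A * (μ * μ'))) * X ^ 4 + C (-(b * μ + b' * μ')) * X ^ 3 +
      C (K - A * (μ * ν' + ν * μ')) * X ^ 2 + C (-(b * ν + b' * ν')) * X + C (-(A * (ν * ν'))) := by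
    simp only [RHS, map_neg, map_mul, map_add, map_sub]
    ring
  rw [e, coeff_add, coeff_add, coeff_add, coeff_add, coeff_C_mul_X_pow, coeff_C_mul_X_pow,
    coeff_C_mul_X_pow, coeff_C_mul_X, coeff_C]
  simp

theorem RHS_coeff_big (μ ν μ' ν' K A b b' : ℂ) {N : ℕ} (hN : 1 ≤ N) :
    (RHS μ ν μ' ν' K A b b' N).coeff (2 * (N + 1) + 2 * (N + 1)) = 0 := by
  apply coeff_eq_zero_of_natDegree_lt
  have h1 : (RHS μ ν μ' ν' K A b b' N).natDegree ≤ 2 * N + 4 := by
    unfold RHS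
    have hq := quad_natDegree μ ν
    have hq' := quad_natDegree μ' ν'
    refine (natDegree_sub_le_of_le (natDegree_sub_le_of_le (natDegree_sub_le_of_le
      (m := 2 * N + 4) (n := 2 * N + 4) ?_ ?_) (n := 2 * N + 4) ?_) (n := 2 * N + 4) ?_).trans
      (by simp)
    · refine (natDegree_C_mul_X_pow_le K _).trans (by omega)
    · refine natDegree_mul_le.trans ?_
      rw [natDegree_X_pow]
      have : (C A * ((C μ * X ^ 2 + C ν) * (C μ' * X ^ 2 + C ν')) : ℂ[X]).natDegree ≤ 4 := by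
        refine (natDegree_C_mul_le _ _).trans (natDegree_mul_le.trans ?_)
        omega
      omega
    · refine natDegree_mul_le.trans ?_
      rw [natDegree_X_pow]
      have : (C b * (C μ * X ^ 2 + C ν) : ℂ[X]).natDegree ≤ 2 :=
        (natDegree_C_mul_le _ _).trans hq
      omega
    · refine natDegree_mul_le.trans ?_
      rw [natDegree_X_pow]
      have : (C b' * (C μ' * X ^ 2 + C ν') : ℂ[X]).natDegree ≤ 2 :=
        (natDegree_C_mul_le _ _).trans hq'
      omega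
  omega

theorem infinite_circle : {s : ℂ | ‖s‖ = 1}.Infinite := by
  have h : Function.Injective (fun r : Set.Ioo (0 : ℝ) 1 => (⟨r.1, Real.sqrt (1 - r.1 ^ 2)⟩ : ℂ)) := by
    intro a b hab
    have := congrArg Complex.re hab
    exact Subtype.ext this
  have h2 : (Set.range (fun r : Set.Ioo (0 : ℝ) 1 =>
      (⟨r.1, Real.sqrt (1 - r.1 ^ 2)⟩ : ℂ))).Infinite := by
    haveI : Infinite (Set.Ioo (0 : ℝ) 1) := (Set.Ioo_infinite zero_lt_one).to_subtype
    exact Set.infinite_range_of_injective h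
  refine h2.mono ?_
  rintro _ ⟨⟨r, hr0, hr1⟩, rfl⟩
  have h3 : 0 ≤ 1 - r ^ 2 := by nlinarith
  have h4 : ‖(⟨r, Real.sqrt (1 - r ^ 2)⟩ : ℂ)‖ ^ 2 = 1 := by
    rw [← Complex.normSq_eq_norm_sq, Complex.normSq_apply]
    simp only
    rw [Real.mul_self_sqrt h3]
    ring
  have h5 : (0 : ℝ) ≤ ‖(⟨r, Real.sqrt (1 - r ^ 2)⟩ : ℂ)‖ := norm_nonneg _
  show ‖(⟨r, Real.sqrt (1 - r ^ 2)⟩ : ℂ)‖ = 1
  nlinarith

theorem conj_eval (p : ℂ[X]) (t : ℂ) :
    (starRingEnd ℂ) (p.eval t) = (p.map (starRingEnd ℂ)).eval ((starRingEnd ℂ) t) := by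
  rw [eval_map, Polynomial.eval₂_hom]

/-- the top coefficient identity -/
theorem top_identity {m : ℕ} {p : Fin m → ℂ[X]} {μ ν : ℂ} {A K : ℝ} {b : ℂ} {N : ℕ}
    (hdeg : ∀ j, (p j).natDegree ≤ N + 1)
    (h : ∀ s : ℂ, ‖s‖ = 1 → ∑ j, ‖(p j).eval (μ * s + ν * (starRingEnd ℂ) s)‖ ^ 2 =
      K - A * ‖μ * s + ν * (starRingEnd ℂ) s‖ ^ 2 - 2 * (b * (μ * s + ν * (starRingEnd ℂ) s)).re) :
    ((∑ j, ‖(p j).coeff (N + 1)‖ ^ 2 : ℝ) : ℂ) * (μ * (starRingEnd ℂ) ν) ^ (N + 1) =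
      (RHS μ ν ((starRingEnd ℂ) ν) ((starRingEnd ℂ) μ) K A b ((starRingEnd ℂ) b) N).coeff
        (2 * (N + 1) + 2 * (N + 1)) := by
  have key : ∑ j, UU μ ν (N + 1) (p j) *
      UU ((starRingEnd ℂ) ν) ((starRingEnd ℂ) μ) (N + 1) ((p j).map (starRingEnd ℂ)) =
      RHS μ ν ((starRingEnd ℂ) ν) ((starRingEnd ℂ) μ) K A b ((starRingEnd ℂ) b) N := by
    refine Polynomial.eq_of_infinite_eval_eq _ _ (infinite_circle.mono ?_)
    intro s hs
    have hs1 : ‖s‖ = 1 := hs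
    have hst : s * (starRingEnd ℂ) s = 1 := by
      rw [Complex.mul_conj, Complex.normSq_eq_norm_sq, hs1]
      norm_num
    show eval s _ = eval s _
    rw [RHS_eval _ _ _ _ _ _ _ _ _ hst, eval_finsetSum]
    have h1 := h s hs1
    set t : ℂ := μ * s + ν * (starRingEnd ℂ) s with ht
    have ht' : (starRingEnd ℂ) ν * s + (starRingEnd ℂ) μ * (starRingEnd ℂ) s = (starRingEnd ℂ) t := by
      rw [ht, map_add, map_mul, map_mul, Complex.conj_conj]
      ring
    rw [ht']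
    have h2 : ∀ j, (UU μ ν (N + 1) (p j) *
        UU ((starRingEnd ℂ) ν) ((starRingEnd ℂ) μ) (N + 1) ((p j).map (starRingEnd ℂ))).eval s =
        s ^ (N + 1) * s ^ (N + 1) * ((‖(p j).eval t‖ ^ 2 : ℝ) : ℂ) := by
      intro j
      rw [eval_mul, UU_eval _ _ (hdeg j) hst,
        UU_eval _ _ ((natDegree_map_le).trans (hdeg j)) hst, ht', ← ht, ← conj_eval,
        ← Complex.normSq_eq_norm_sq, ← Complex.mul_conj]
      ring
    rw [Finset.sum_congr rfl fun j _ => h2 j, ← Finset.mul_sum, ← Complex.ofReal_sum, h1]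
    congr 1
    push_cast
    have h3 : ((‖t‖ : ℂ)) ^ 2 = t * (starRingEnd ℂ) t := by
      rw [Complex.mul_conj, Complex.normSq_eq_norm_sq]
      push_cast
      rfl
    have h4 : (2 : ℂ) * (((b * t).re : ℝ) : ℂ) = b * t + (starRingEnd ℂ) b * (starRingEnd ℂ) t := by
      rw [← map_mul, Complex.add_conj]
      push_cast
      ring
    rw [h3, h4]
    ring
  rw [← key, finsetSum_coeff, Complex.ofReal_sum, Finset.sum_mul]
  refine Finset.sum_congr rfl fun j _ => ?_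
  rw [UU_mul_coeff, coeff_map, ← Complex.normSq_eq_norm_sq, ← Complex.mul_conj, mul_pow]
  ring

theorem one_var {m : ℕ} {p : Fin m → ℂ[X]} {μ ν : ℂ} (hμ : μ ≠ 0) (hν : ν ≠ 0) {A K : ℝ}
    (hA : 0 < A) {b : ℂ}
    (h : ∀ s : ℂ, ‖s‖ = 1 → ∑ j, ‖(p j).eval (μ * s + ν * (starRingEnd ℂ) s)‖ ^ 2 =
      K - A * ‖μ * s + ν * (starRingEnd ℂ) s‖ ^ 2 -
        2 * (b * (μ * s + ν * (starRingEnd ℂ) s)).re) : False := by
  have hμν : μ * (starRingEnd ℂ) ν ≠ 0 := mul_ne_zero hμ ((_root_.map_ne_zero _).mpr hν)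
  have key : ∀ N : ℕ, (∀ j, (p j).natDegree ≤ N + 1) → False := by
    intro N
    induction N with
    | zero =>
      intro hdeg
      have h1 := top_identity hdeg h
      have h2 := RHS_coeff_one μ ν ((starRingEnd ℂ) ν) ((starRingEnd ℂ) μ) K A b ((starRingEnd ℂ) b)
      rw [show 2 * (0 + 1) + 2 * (0 + 1) = 4 from rfl, h2, zero_add, pow_one] at h1
      have h3 : ((∑ j, ‖(p j).coeff 1‖ ^ 2 : ℝ) : ℂ) = ((-A : ℝ) : ℂ) := by
        apply mul_right_cancel₀ hμν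
        rw [h1]
        push_cast
        ring
      have h4 : ∑ j, ‖(p j).coeff 1‖ ^ 2 = -A := by exact_mod_cast h3
      have h5 : 0 ≤ ∑ j, ‖(p j).coeff 1‖ ^ 2 := Finset.sum_nonneg fun _ _ => sq_nonneg _
      linarith
    | succ N ih =>
      intro hdeg
      apply ih
      have h1 := top_identity hdeg h
      rw [RHS_coeff_big _ _ _ _ _ _ _ _ (by omega)] at h1
      have h3 : ((∑ j, ‖(p j).coeff (N + 1 + 1)‖ ^ 2 : ℝ) : ℂ) = 0 := by
        rcases mul_eq_zero.mp h1 with h3 | h3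
        · exact h3
        · exact absurd h3 (pow_ne_zero _ hμν)
      have h4 : ∑ j, ‖(p j).coeff (N + 1 + 1)‖ ^ 2 = 0 := by exact_mod_cast h3
      intro j
      have h5 := (Finset.sum_eq_zero_iff_of_nonneg fun j _ => sq_nonneg ‖(p j).coeff (N + 1 + 1)‖).mp
        h4 j (Finset.mem_univ j)
      have h6 : (p j).coeff (N + 1 + 1) = 0 := by simpa using h5
      rcases (hdeg j).lt_or_eq with h7 | h7
      · omega
      · exfalso
        have h8 : (p j) ≠ 0 := by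
          intro h9
          rw [h9, natDegree_zero] at h7
          omega
        apply h8
        rw [← leadingCoeff_eq_zero, leadingCoeff, h7]
        exact h6
  obtain ⟨N, hN⟩ : ∃ N : ℕ, ∀ j, (p j).natDegree ≤ N + 1 := by
    refine ⟨∑ j, (p j).natDegree, fun j => ?_⟩
    have : (p j).natDegree ≤ ∑ j, (p j).natDegree :=
      Finset.single_le_sum (f := fun j => (p j).natDegree) (fun _ _ => Nat.zero_le _)
      (Finset.mem_univ j)
    omega
  exact key N hN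

end Pool.Agent.Work.MP_49847a_an
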