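import Pool.Agent.Work.MP_49847a_an.Rat.SJL
import Pool.Agent.Work.MP_49847a_an.Ell.OneVar
import Pool.Agent.Work.MP_49847a_an.Ell.Geo

/-!
# Ellipsoids: the sum of squares property holds exactly for Hermitian ellipsoids
-/

namespace Pool.Agent.Work.MP_49847a_an

open MvPolynomial

variable {n : ℕ}

theorem line_poly (p : MvPolynomial (Fin n) ℂ) (c v : Fin n → ℂ) :
    ∃ P : Polynomial ℂ, ∀ t : ℂ, P.eval t = eval (c + t • v) p := by
  refine ⟨aeval (fun i => Polynomial.C (c i) + Polynomial.X * Polynomial.C (v i)) p, fun t => ?_⟩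
  induction p using MvPolynomial.induction_on with
  | C a => simp
  | add p q hp hq => simp only [map_add, Polynomial.eval_add, hp, hq]
  | mul_X p i hp =>
    rw [map_mul, aeval_X, Polynomial.eval_mul, hp, map_mul, eval_X]
    simp only [Polynomial.eval_add, Polynomial.eval_C, Polynomial.eval_mul, Polynomial.eval_X,
      Pi.add_apply, Pi.smul_apply, smul_eq_mul]

theorem nn_line (c v : Fin n → ℂ) (t : ℂ) :
    nn (c + t • v) = nn c + nn v * ‖t‖ ^ 2 +
      2 * ((∑ i, v i * (starRingEnd ℂ) (c i)) * t).re := by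
  unfold nn
  rw [Finset.sum_mul, Finset.sum_mul, Complex.re_sum, Finset.mul_sum, ← Finset.sum_add_distrib,
    ← Finset.sum_add_distrib]
  refine Finset.sum_congr rfl fun i _ => ?_
  simp only [Pi.add_apply, Pi.smul_apply, smul_eq_mul, ← Complex.normSq_eq_norm_sq,
    Complex.normSq_apply, Complex.add_re, Complex.add_im, Complex.mul_re, Complex.mul_im,
    Complex.conj_re, Complex.conj_im]
  ring

theorem ell_bound (Q : QuadraticForm ℝ (Fin n → ℂ)) (hQ : Q.PosDef) (c : Fin n → ℂ) :
    ∃ N : ℝ, ∀ z, Q (z - c) = 1 → nn z < N := by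
  obtain ⟨m, hm, hlow⟩ := quad_lower Q hQ
  refine ⟨2 / m + 2 * nn c + 1, fun z hz => ?_⟩
  have h1 := hlow (z - c)
  rw [hz] at h1
  have h2 : nn (z - c) ≤ 1 / m := by
    rw [le_div_iff₀ hm, mul_comm]
    exact h1
  have h3 : nn z ≤ 2 * nn (z - c) + 2 * nn c := by
    unfold nn
    rw [Finset.mul_sum, Finset.mul_sum, ← Finset.sum_add_distrib]
    refine Finset.sum_le_sum fun i _ => ?_
    have e : z i = (z - c) i + c i := by simp
    rw [e]
    have h4 := norm_add_le ((z - c) i) (c i)
    have h5 : 0 ≤ ‖(z - c) i + c i‖ := norm_nonneg _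
    nlinarith [sq_nonneg (‖(z - c) i‖ - ‖c i‖), norm_nonneg ((z - c) i), norm_nonneg (c i)]
  have h4 : 2 / m = 2 * (1 / m) := by ring
  rw [h4]
  linarith

theorem ell_only (Q : QuadraticForm ℝ (Fin n → ℂ)) (hQ : Q.PosDef) (c : Fin n → ℂ)
    (h : SumsOn {z | Q (z - c) = 1}) (v : Fin n → ℂ) : Q (Complex.I • v) = Q v := by
  by_contra hne
  obtain ⟨μ, ν, hμ, hν, hpar⟩ := param Q hQ hne
  have hv : v ≠ 0 := by
    rintro rfl
    apply hne
    rw [smul_zero]
  have hnv : 0 < nn v := by
    obtain ⟨i, hi⟩ : ∃ i, v i ≠ 0 := by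
      by_contra hcon
      push Not at hcon
      exact hv (funext hcon)
    exact Finset.sum_pos' (fun _ _ => by positivity) ⟨i, Finset.mem_univ i, by positivity⟩
  obtain ⟨N, hN⟩ := ell_bound Q hQ c
  obtain ⟨m, p, hp⟩ := h (C N - WW n 0) (by
    intro z hz
    rw [ev_sub, ev_C, ev_WW]
    have := hN z hz
    linarith)
  choose P hP using fun j => line_poly (p j) c v
  refine one_var (p := P) hμ hν (A := nn v) (K := N - nn c) hnv
    (b := ∑ i, v i * (starRingEnd ℂ) (c i)) ?_
  intro s hs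
  set t : ℂ := μ * s + ν * (starRingEnd ℂ) s with ht
  have hz : (c + t • v) ∈ {z | Q (z - c) = 1} := by
    show Q (c + t • v - c) = 1
    rw [add_sub_cancel_left]
    exact hpar s hs
  have h1 := hp _ hz
  rw [ev_sub, ev_C, ev_WW, nn_line, nrm] at h1
  rw [Finset.sum_congr rfl fun j _ => by rw [hP j t], ← h1]
  ring

theorem ell_if (Q : QuadraticForm ℝ (Fin n → ℂ)) (hQ : Q.PosDef) (c : Fin n → ℂ)
    (h : ∀ z, Q (Complex.I • z) = Q z) : SumsOn {z | Q (z - c) = 1} := by
  obtain ⟨A, hA⟩ := hermitian Q hQ h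
  set P : Fin n → MvPolynomial (Fin n) ℂ := fun j => ∑ i, C (A j i) * (X i - C (c i)) with hP
  have hPe : ∀ z j, eval z (P j) = (A.mulVec (z - c)) j := by
    intro z j
    simp [hP, Matrix.mulVec, dotProduct]
  have hnrm : ∀ z, nrm P z = Q (z - c) := by
    intro z
    rw [hA, nrm]
    exact Finset.sum_congr rfl fun j _ => by rw [hPe]
  have hinjA : ∀ w, A.mulVec w = 0 → w = 0 := by
    intro w hw
    by_contra hw0
    have h1 := hQ w hw0
    rw [hA, hw] at h1
    simp at h1
  have hXX : XX P = {z | Q (z - c) = 1} := by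
    ext z
    show nrm P z = 1 ↔ Q (z - c) = 1
    rw [hnrm]
  have hdd : ∀ a v j, dd P a v j = (A.mulVec v) j := by
    intro a v j
    unfold dd
    simp only [Matrix.mulVec, dotProduct]
    refine Finset.sum_congr rfl fun i _ => ?_
    congr 1
    simp only [hP, map_sum, Derivation.leibniz, map_sub, pderiv_C, smul_zero, add_zero, sub_zero,
      smul_eq_mul, map_mul, eval_C, pderiv_X, mul_zero]
    rw [Finset.sum_eq_single i]
    · simp
    · intro b _ hb
      rw [Pi.single_apply, if_neg hb]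
      simp
    · intro h
      exact absurd (Finset.mem_univ i) h
  have hinv : IsUnit A := by
    rw [← Matrix.mulVec_injective_iff_isUnit]
    intro x y hxy
    have h1 : A.mulVec (x - y) = 0 := by
      rw [Matrix.mulVec_sub, sub_eq_zero]
      exact hxy
    exact sub_eq_zero.mp (hinjA _ h1)
  have hfin : FiniteMap P := by
    intro i
    have h1 : (X i : MvPolynomial (Fin n) ℂ) ∈ Algebra.adjoin ℂ (Set.range P) := by
      have h2 : (X i : MvPolynomial (Fin n) ℂ) = C (c i) + ∑ j, C (A⁻¹ i j) * P j := by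
        have h3 : ∑ j, C (A⁻¹ i j) * P j =
            ∑ l, C ((A⁻¹ * A) i l) * (X l - C (c l) : MvPolynomial (Fin n) ℂ) := by
          simp only [hP, Finset.mul_sum, Matrix.mul_apply, map_sum, Finset.sum_mul]
          rw [Finset.sum_comm]
          refine Finset.sum_congr rfl fun l _ => Finset.sum_congr rfl fun j _ => ?_
          rw [map_mul]
          ring
        rw [h3, Matrix.nonsing_inv_mul _ ((Matrix.isUnit_iff_isUnit_det A).mp hinv)]
        rw [Finset.sum_eq_single i]
        · simp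
        · intro b _ hb
          rw [Matrix.one_apply_ne hb.symm]
          simp
        · intro h
          exact absurd (Finset.mem_univ i) h
      rw [h2]
      refine Subalgebra.add_mem _ (Subalgebra.algebraMap_mem _ (c i)) (Subalgebra.sum_mem _ ?_)
      intro j _
      exact Subalgebra.mul_mem _ (Subalgebra.algebraMap_mem _ _) (Algebra.subset_adjoin ⟨j, rfl⟩)
    exact isIntegral_algebraMap (R := Algebra.adjoin ℂ (Set.range P)) (x := ⟨X i, h1⟩)
  have himm : ImmX P := by
    intro a _ v hv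
    apply hinjA
    funext j
    rw [← hdd a v j, hv j]
    rfl
  have hinj : InjX P := by
    intro a _ b _ hab
    have h1 : A.mulVec ((a - c) - (b - c)) = 0 := by
      rw [Matrix.mulVec_sub, sub_eq_zero]
      funext j
      rw [← hPe, ← hPe]
      exact hab j
    have h2 := hinjA _ h1
    rw [sub_sub_sub_cancel_right] at h2
    exact sub_eq_zero.mp h2
  have hQu : Quillen P := (quillen_iff hfin).mpr ⟨strPsc_iff.mpr himm, hinj⟩
  intro R hR
  obtain ⟨m, p, H, hH⟩ := hQu R (by rw [hXX]; exact hR)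
  refine ⟨m, p, fun z hz => ?_⟩
  have h1 : nrm P z = 1 := by
    rw [hnrm]
    exact hz
  rw [hH z, h1]
  ring

theorem ell_iff (Q : QuadraticForm ℝ (Fin n → ℂ)) (hQ : Q.PosDef) (c : Fin n → ℂ) :
    SumsOn {z | Q (z - c) = 1} ↔ ∀ z, Q (Complex.I • z) = Q z :=
  ⟨fun h v => ell_only Q hQ c h v, ell_if Q hQ c⟩

end Pool.Agent.Work.MP_49847a_an
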